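import Pool.Agent.Helper917_ITM.Main

open Pool.Agent.H175R2 Pool.Agent.Helper917ITM

/-- Full classification: for every finite graph `H`, the `H`-induced-topological-minor-free graphs
have bounded clique-width iff `H` is an induced subgraph of `P₄`, of the paw or of the diamond. -/
theorem Pool.Agent.Results.MP_d0d08e_co.Classification.result {W : Type} [Finite W]
    (H : SimpleGraph W) :
    BddITM H ↔
      (Nonempty (H ↪g SimpleGraph.pathGraph 4) ∨ Nonempty (H ↪g paw) ∨ Nonempty (H ↪g diamond)) :=
  main H
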